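import Pool.Agent.Helper73.Hick.Final

namespace Pool.Agent.Results.MP_6a97ae_co.ExactValue

/-- `nu A s` is the number of pairs `x < y` of elements of `A` with `y - x = s`. -/
def nu (A : Finset ℕ) (s : ℕ) : ℕ :=
  ((A ×ˢ A).filter (fun p => p.1 < p.2 ∧ p.2 - p.1 = s)).card

/-- `A` is admissible: every difference `s ≥ 1` occurs at most `2 s` times. -/
def Admissible (A : Finset ℕ) : Prop := ∀ s, 1 ≤ s → nu A s ≤ 2 * s

/-- the possible sizes of admissible subsets of `{1, ..., n}` -/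
def Sizes (n : ℕ) : Set ℕ :=
  {r | ∃ A : Finset ℕ, A ⊆ Finset.Icc 1 n ∧ Admissible A ∧ A.card = r}

open Pool.Agent.Helper73

theorem nu_eq (A : Finset ℕ) (s : ℕ) (hs : 1 ≤ s) : nu A s = Hick.nu A s := by
  unfold nu Hick.nu
  congr 1
  apply Finset.filter_congr
  intro p _
  omega

theorem admissible_iff (A : Finset ℕ) : Admissible A ↔ Hick.Admissible A := by
  unfold Admissible Hick.Admissible
  constructor
  · intro h s hs
    rw [← nu_eq A s hs]; exact h s hs
  · intro h s hs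
    rw [nu_eq A s hs]; exact h s hs

theorem sizes_le {n r : ℕ} (hn : 1 ≤ n) (hr : r ∈ Sizes n) (M : ℕ) (hM : 1 ≤ M) :
    r ≤ 1 + (3 * (n - 1) + M ^ 3 - M) / (3 * M) := by
  obtain ⟨A, hA, hadm, rfl⟩ := hr
  have h1 := Hick.upper (L := M) hn A hA ((admissible_iff A).mp hadm)
  have hM3 : M ≤ M ^ 3 := Nat.le_self_pow (by omega) M
  rcases Nat.eq_zero_or_pos A.card with h0 | h0
  · rw [h0]; exact Nat.zero_le _
  · obtain ⟨k, hk⟩ : ∃ k, A.card = k + 1 := ⟨A.card - 1, by omega⟩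
    rw [hk] at h1 ⊢
    have h2 : k ≤ (3 * (n - 1) + M ^ 3 - M) / (3 * M) := by
      rw [Nat.le_div_iff_mul_le (by omega)]
      have h3 : 3 * (M * (k + 1)) = k * (3 * M) + 3 * M := by ring
      rw [h3] at h1
      omega
    omega

theorem exists_set {n L m : ℕ} (hL : 1 ≤ L) (hm : m ≤ 2 * L - 1)
    (h : (L - 1) * L * (2 * L - 1) + 3 * L * m ≤ 3 * (n - 1)) (hn : 1 ≤ n) :
    ∃ A : Finset ℕ, A ⊆ Finset.Icc 1 n ∧ Hick.Admissible A ∧ 1 + L * (L - 1) + m ≤ A.card := by
  rcases Nat.lt_or_ge L 2 with h2 | h2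
  · have hL1 : L = 1 := by omega
    subst hL1
    have hm1 : m = 0 ∨ m = 1 := by omega
    rcases hm1 with rfl | rfl
    · refine ⟨{1}, ?_, ?_, ?_⟩
      · intro x hx
        rw [Finset.mem_singleton] at hx
        subst hx
        rw [Finset.mem_Icc]; omega
      · intro s hs
        have : Hick.nu {1} s = 0 := by
          unfold Hick.nu
          rw [Finset.card_eq_zero, Finset.filter_eq_empty_iff]
          intro p hp
          rw [Finset.mem_product, Finset.mem_singleton, Finset.mem_singleton] at hp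
          omega
        omega
      · simp
    · refine ⟨{1, 2}, ?_, ?_, ?_⟩
      · intro x hx
        rw [Finset.mem_insert, Finset.mem_singleton] at hx
        rw [Finset.mem_Icc]
        omega
      · intro s hs
        have h4 : Hick.nu {1, 2} s ≤ 1 := by
          unfold Hick.nu
          rw [Finset.card_le_one]
          intro p hp q hq
          rw [Finset.mem_filter, Finset.mem_product, Finset.mem_insert, Finset.mem_singleton,
            Finset.mem_insert, Finset.mem_singleton] at hp hq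
          apply Prod.ext <;> omega
        omega
      · simp
  · obtain ⟨S, rfl⟩ : ∃ S, L = S + 1 := ⟨L - 1, by omega⟩
    have hS : 1 ≤ S := by omega
    have hm' : m ≤ 2 * S + 1 := by omega
    refine ⟨Hick.Aset S m, ?_, Hick.Aset_admissible hS hm', ?_⟩
    · intro x hx
      rw [Hick.Aset, Finset.mem_image] at hx
      obtain ⟨p, hp, rfl⟩ := hx
      have h3 := Hick.pos_le hS hm' hp
      rw [Finset.mem_Icc]
      have e1 : S + 1 - 1 = S := by omega
      have e2 : 2 * (S + 1) - 1 = 2 * S + 1 := by omega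
      rw [e1, e2] at h
      have e3 : S * (S + 1) * (2 * S + 1) = (S + 1) * S * (2 * S + 1) := by ring
      rw [e3] at h
      omega
    · have h3 := Hick.card_Aset hS hm'
      have e1 : S + 1 - 1 = S := by omega
      rw [e1]
      omega

/-- For every `n ≥ 1` let `L ≥ 1` be the integer with
`(L-1) L (2L-1) ≤ 3 (n-1) < L (L+1) (2L+1)`. Then the largest size of an admissible subset of
`{1, ..., n}` is `1 + L (L-1) + ⌊(3 (n-1) - (L-1) L (2L-1)) / (3L)⌋`, and this number is also the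
minimum over `M ≥ 1` of `1 + ⌊(3 (n-1) + M^3 - M) / (3M)⌋`. -/
theorem result (n : ℕ) (hn : 1 ≤ n) :
    ∃ L : ℕ, 1 ≤ L ∧ (L - 1) * L * (2 * L - 1) ≤ 3 * (n - 1) ∧
      3 * (n - 1) < L * (L + 1) * (2 * L + 1) ∧
      IsGreatest (Sizes n)
        (1 + L * (L - 1) + (3 * (n - 1) - (L - 1) * L * (2 * L - 1)) / (3 * L)) ∧
      IsLeast {k : ℕ | ∃ M : ℕ, 1 ≤ M ∧ k = 1 + (3 * (n - 1) + M ^ 3 - M) / (3 * M)}
        (1 + L * (L - 1) + (3 * (n - 1) - (L - 1) * L * (2 * L - 1)) / (3 * L)) := by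
  have hex : ∃ L : ℕ, 3 * (n - 1) < L * (L + 1) * (2 * L + 1) := by
    refine ⟨n, ?_⟩
    obtain ⟨k, rfl⟩ : ∃ k, n = k + 1 := ⟨n - 1, by omega⟩
    have e1 : k + 1 - 1 = k := by omega
    rw [e1]
    have e2 : (k + 1) * (k + 1 + 1) * (2 * (k + 1) + 1) =
      3 * k + (6 + 10 * k + 9 * (k * k) + 2 * (k * k * k)) := by ring
    rw [e2]
    have e3 : 0 ≤ k * k := Nat.zero_le _
    have e4 : 0 ≤ k * k * k := Nat.zero_le _
    omega
  classical
  obtain ⟨L, hL1, hL2⟩ : ∃ L : ℕ, 3 * (n - 1) < L * (L + 1) * (2 * L + 1) ∧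
      ∀ k < L, ¬ 3 * (n - 1) < k * (k + 1) * (2 * k + 1) :=
    ⟨Nat.find hex, Nat.find_spec hex, fun k hk => Nat.find_min hex hk⟩
  have hLpos : 1 ≤ L := by
    by_contra hcon
    have : L = 0 := by omega
    subst this
    simp at hL1
  obtain ⟨S, rfl⟩ : ∃ S, L = S + 1 := ⟨L - 1, by omega⟩
  have hlow : (S + 1 - 1) * (S + 1) * (2 * (S + 1) - 1) ≤ 3 * (n - 1) := by
    have := hL2 S (by omega)
    push Not at this
    have e1 : S + 1 - 1 = S := by omega
    have e2 : 2 * (S + 1) - 1 = 2 * S + 1 := by omega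
    rw [e1, e2]; exact this
  set m := (3 * (n - 1) - (S + 1 - 1) * (S + 1) * (2 * (S + 1) - 1)) / (3 * (S + 1)) with hmdef
  have hm1 : m * (3 * (S + 1)) ≤ 3 * (n - 1) - (S + 1 - 1) * (S + 1) * (2 * (S + 1) - 1) :=
    Nat.div_mul_le_self _ _
  have hm2 : m ≤ 2 * (S + 1) - 1 := by
    have h3 : m < 2 * (S + 1) := by
      rw [hmdef, Nat.div_lt_iff_lt_mul (by omega)]
      have e1 : S + 1 - 1 = S := by omega
      have e2 : 2 * (S + 1) - 1 = 2 * S + 1 := by omega
      rw [e1, e2]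
      have e3 : (S + 1) * (S + 1 + 1) * (2 * (S + 1) + 1) =
          S * (S + 1) * (2 * S + 1) + 2 * (S + 1) * (3 * (S + 1)) := by ring
      rw [e3] at hL1
      have e4 : 0 < 2 * (S + 1) * (3 * (S + 1)) := by positivity
      omega
    omega
  have hval : 1 + (3 * (n - 1) + (S + 1) ^ 3 - (S + 1)) / (3 * (S + 1)) =
      1 + (S + 1) * (S + 1 - 1) + m := by
    have e1 : S + 1 - 1 = S := by omega
    have e2 : 2 * (S + 1) - 1 = 2 * S + 1 := by omega
    have e3 : 3 * (n - 1) + (S + 1) ^ 3 - (S + 1) =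
        (3 * (n - 1) - (S + 1 - 1) * (S + 1) * (2 * (S + 1) - 1)) +
          3 * (S + 1) * ((S + 1) * (S + 1 - 1)) := by
      rw [e1, e2]
      rw [e1, e2] at hlow
      have e4 : (S + 1) ^ 3 + S * (S + 1) * (2 * S + 1) =
        3 * (S + 1) * ((S + 1) * S) + (S + 1) := by ring
      omega
    rw [e3, Nat.add_mul_div_left _ _ (by omega), ← hmdef]
    ring
  have hmem : 1 + (S + 1) * (S + 1 - 1) + m ∈ Sizes n := by
    obtain ⟨A, hA, hadm, hcard⟩ := exists_set (n := n) (L := S + 1) (m := m) (by omega) hm2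
      (by
        have : 3 * (S + 1) * m = m * (3 * (S + 1)) := by ring
        rw [this]; omega) hn
    obtain ⟨B, hBA, hBc⟩ := Finset.exists_subset_card_eq hcard
    refine ⟨B, hBA.trans hA, ?_, hBc⟩
    rw [admissible_iff]
    intro s hs
    exact (Hick.nu_mono hBA s).trans (hadm s hs)
  refine ⟨S + 1, by omega, hlow, hL1, ⟨hmem, ?_⟩, ⟨⟨S + 1, by omega, hval.symm⟩, ?_⟩⟩
  · intro r hr
    have := sizes_le hn hr (S + 1) (by omega)
    rw [hval] at this
    exact this
  · rintro k ⟨M, hM, rfl⟩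
    exact sizes_le hn hmem M hM

end Pool.Agent.Results.MP_6a97ae_co.ExactValue
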